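import Mathlib

set_option autoImplicit false

namespace Pool.Agent.Results.MP_3aa442_co.Counter

open Matrix

/-- Symmetric doubly stochastic `n × n` matrices. -/
def symDS (n : ℕ) : Set (Matrix (Fin n) (Fin n) ℝ) :=
  {A | (∀ i j, 0 ≤ A i j) ∧ (∀ i, ∑ j, A i j = 1) ∧ (∀ j, ∑ i, A i j = 1) ∧ Aᵀ = A}

/-- Similarity of square matrices. -/
def Similar {n : ℕ} (A B : Matrix (Fin n) (Fin n) ℝ) : Prop :=
  ∃ S T : Matrix (Fin n) (Fin n) ℝ, S * T = 1 ∧ T * S = 1 ∧ B = T * A * S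

/-- Permutation similarity. -/
def PermSimilar {n : ℕ} (A B : Matrix (Fin n) (Fin n) ℝ) : Prop :=
  ∃ σ : Equiv.Perm (Fin n), B = (σ.permMatrix ℝ)ᵀ * A * σ.permMatrix ℝ

/-- Determined by its spectrum among symmetric doubly stochastic matrices. -/
def IsDS {n : ℕ} (A : Matrix (Fin n) (Fin n) ℝ) : Prop :=
  ∀ B ∈ symDS n, Similar A B → PermSimilar A B

/-- The matrix with zero diagonal and all other entries `1 / (n - 1)`. -/
noncomputable def Cmat (n : ℕ) : Matrix (Fin n) (Fin n) ℝ :=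
  Matrix.of fun i j => if i = j then 0 else 1 / ((n : ℝ) - 1)

/-- The counterexample. -/
noncomputable def A0 : Matrix (Fin 4) (Fin 4) ℝ :=
  !![0, 1, 0, 0; 1, 0, 0, 0; 0, 0, 1/4, 3/4; 0, 0, 3/4, 1/4]

theorem permSim_of (B : Matrix (Fin 4) (Fin 4) ℝ) (σ : Equiv.Perm (Fin 4))
    (h : ∀ i j, B (σ i) (σ j) = A0 i j) : PermSimilar A0 B := by
  refine ⟨σ, ?_⟩
  ext i j
  rw [transpose_permMatrix, Equiv.Perm.permMatrix, Equiv.Perm.permMatrix,
    PEquiv.toMatrix_toPEquiv_mul, PEquiv.mul_toMatrix_toPEquiv]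
  have := h (σ.symm i) (σ.symm j)
  simp only [Equiv.apply_symm_apply] at this
  simp [this, Equiv.Perm.inv_def]

theorem key (a b c d e f : ℝ) (ha : 0 ≤ a) (hb : 0 ≤ b) (hc : 0 ≤ c) (hd : 0 ≤ d) (he : 0 ≤ e)
    (hf : 0 ≤ f) (h1 : a + b + c ≤ 1) (h2 : a + d + e ≤ 1) (h3 : b + d + f ≤ 1)
    (h4 : c + e + f ≤ 1) (hs : a + b + c + d + e + f = 7 / 4)
    (hq : (1 - (a + b + c)) ^ 2 + (1 - (a + d + e)) ^ 2 + (1 - (b + d + f)) ^ 2
      + (1 - (c + e + f)) ^ 2 + 2 * (a ^ 2 + b ^ 2 + c ^ 2 + d ^ 2 + e ^ 2 + f ^ 2) = 13 / 4)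
    (ht : a * b * c + a * d * e + b * d * f + c * e * f + a * d * f + a * e * f + a * b * f
      + a * c * f + b * d * e + b * e * f + a * b * e + b * c * e + c * d * e + c * d * f
      + a * c * d + b * c * d = 0) :
    (b = 0 ∧ c = 0 ∧ d = 0 ∧ e = 0 ∧ (a = 1 ∧ f = 3 / 4 ∨ a = 3 / 4 ∧ f = 1)) ∨
    (a = 0 ∧ c = 0 ∧ d = 0 ∧ f = 0 ∧ (b = 1 ∧ e = 3 / 4 ∨ b = 3 / 4 ∧ e = 1)) ∨
    (a = 0 ∧ b = 0 ∧ e = 0 ∧ f = 0 ∧ (c = 1 ∧ d = 3 / 4 ∨ c = 3 / 4 ∧ d = 1)) := by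
  have two : ∀ x y : ℝ, x + y = 7 / 4 →
      2 * ((1 - x) ^ 2 + (1 - y) ^ 2) + 2 * (x ^ 2 + y ^ 2) = 13 / 4 →
      (x = 1 ∧ y = 3 / 4 ∨ x = 3 / 4 ∧ y = 1) := fun x y hxy hh => by
    have hy : y = 7 / 4 - x := by linarith
    subst hy
    have : (x - 1) * (x - 3 / 4) = 0 := by nlinarith
    rcases mul_eq_zero.1 this with h | h
    · left; constructor <;> linarith
    · right; constructor <;> linarith
  rcases ha.eq_or_lt with rfl | ha <;> rcases hb.eq_or_lt with rfl | hb <;>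
  rcases hc.eq_or_lt with rfl | hc <;> rcases hd.eq_or_lt with rfl | hd <;>
  rcases he.eq_or_lt with rfl | he <;> rcases hf.eq_or_lt with rfl | hf <;>
  first
    | (exfalso; linarith)
    | (exfalso; simp only [mul_zero, zero_mul, add_zero, zero_add] at ht; exact absurd ht (by positivity))
    | (exfalso; exact absurd ht (by positivity))
    | exact Or.inl ⟨rfl, rfl, rfl, rfl, two _ _ (by linarith) (by linarith)⟩
    | exact Or.inr (Or.inl ⟨rfl, rfl, rfl, rfl, two _ _ (by linarith) (by linarith)⟩)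
    | exact Or.inr (Or.inr ⟨rfl, rfl, rfl, rfl, two _ _ (by linarith) (by linarith)⟩)

theorem A0_DS : IsDS A0 := by
  rintro B ⟨hpos, hrow, -, hsym⟩ ⟨S, T, hST, -, hB⟩
  have t1 : B.trace = A0.trace := by
    rw [hB, trace_mul_cycle, hST, one_mul]
  have t2 : (B * B).trace = (A0 * A0).trace := by
    have : B * B = T * (A0 * A0) * S := by
      rw [hB]; simp only [mul_assoc]; rw [← mul_assoc S T, hST, one_mul]
    rw [this, trace_mul_cycle, hST, one_mul]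
  have t3 : (B * B * B).trace = (A0 * A0 * A0).trace := by
    have : B * B * B = T * (A0 * A0 * A0) * S := by
      rw [hB]; simp only [mul_assoc]; rw [← mul_assoc S T, hST, one_mul, ← mul_assoc S T, hST,
        one_mul]
    rw [this, trace_mul_cycle, hST, one_mul]
  have s : ∀ i j, B j i = B i j := fun i j => by
    have := congrFun (congrFun hsym i) j
    rwa [transpose_apply] at this
  obtain ⟨a, ha⟩ : ∃ a, a = B 0 1 := ⟨_, rfl⟩
  obtain ⟨b, hb⟩ : ∃ a, a = B 0 2 := ⟨_, rfl⟩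
  obtain ⟨c, hc⟩ : ∃ a, a = B 0 3 := ⟨_, rfl⟩
  obtain ⟨d, hd⟩ : ∃ a, a = B 1 2 := ⟨_, rfl⟩
  obtain ⟨e, he⟩ : ∃ a, a = B 1 3 := ⟨_, rfl⟩
  obtain ⟨f, hf⟩ : ∃ a, a = B 2 3 := ⟨_, rfl⟩
  have r0 := hrow 0
  have r1 := hrow 1
  have r2 := hrow 2
  have r3 := hrow 3
  simp only [Fin.sum_univ_four, s 0 1, s 0 2, s 0 3, s 1 2, s 1 3, s 2 3, ← ha, ← hb, ← hc, ← hd,
    ← he, ← hf] at r0 r1 r2 r3
  have hBe : B = !![1 - (a + b + c), a, b, c; a, 1 - (a + d + e), d, e;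
      b, d, 1 - (b + d + f), f; c, e, f, 1 - (c + e + f)] := by
    ext i j
    fin_cases i <;> fin_cases j <;> simp [ha, hb, hc, hd, he, hf, s 0 1, s 0 2, s 0 3, s 1 2,
      s 1 3, s 2 3] <;> linarith
  have p0 := hpos 0 0
  have p1 := hpos 1 1
  have p2 := hpos 2 2
  have p3 := hpos 3 3
  have ha0 : 0 ≤ a := ha ▸ hpos 0 1
  have hb0 : 0 ≤ b := hb ▸ hpos 0 2
  have hc0 : 0 ≤ c := hc ▸ hpos 0 3
  have hd0 : 0 ≤ d := hd ▸ hpos 1 2
  have he0 : 0 ≤ e := he ▸ hpos 1 3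
  have hf0 : 0 ≤ f := hf ▸ hpos 2 3
  clear ha hb hc hd he hf hB s hsym hrow hpos
  subst hBe
  simp [A0, trace, Fin.sum_univ_four] at t1 t2 t3 p0 p1 p2 p3
  have hs : a + b + c + d + e + f = 7 / 4 := by linarith
  have hq : (1 - (a + b + c)) ^ 2 + (1 - (a + d + e)) ^ 2 + (1 - (b + d + f)) ^ 2
      + (1 - (c + e + f)) ^ 2 + 2 * (a ^ 2 + b ^ 2 + c ^ 2 + d ^ 2 + e ^ 2 + f ^ 2) = 13 / 4 := by
    linear_combination t2
  have ht : a * b * c + a * d * e + b * d * f + c * e * f + a * d * f + a * e * f + a * b * f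
      + a * c * f + b * d * e + b * e * f + a * b * e + b * c * e + c * d * e + c * d * f
      + a * c * d + b * c * d = 0 := by
    linear_combination ((8 * (a + b + c + d + e + f) ^ 2 - 10 * (a + b + c + d + e + f) - 1) / 24) * hs
      + ((6 - 6 * (a + b + c + d + e + f)) / 24) * hq - (2 / 24) * t3
  rcases key a b c d e f ha0 hb0 hc0 hd0 he0 hf0 p0 p1 p2 p3 hs hq ht with
    ⟨h1, h2, h3, h4, ⟨h5, h6⟩ | ⟨h5, h6⟩⟩ | ⟨h1, h2, h3, h4, ⟨h5, h6⟩ | ⟨h5, h6⟩⟩ |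
    ⟨h1, h2, h3, h4, ⟨h5, h6⟩ | ⟨h5, h6⟩⟩
  all_goals subst h1 h2 h3 h4 h5 h6
  all_goals clear t1 t2 t3 r0 r1 r2 r3 hs hq ht
  · apply permSim_of _ 1
    intro i j
    fin_cases i <;> fin_cases j <;> simp [A0] <;> norm_num
  · apply permSim_of _ (Equiv.swap 0 2 * Equiv.swap 1 3)
    intro i j
    fin_cases i <;> fin_cases j <;> simp [A0, Equiv.swap_apply_def] <;> norm_num
  · apply permSim_of _ (Equiv.swap 1 2)
    intro i j
    fin_cases i <;> fin_cases j <;> simp [A0, Equiv.swap_apply_def] <;> norm_num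
  · apply permSim_of _ (Equiv.swap 0 3)
    intro i j
    fin_cases i <;> fin_cases j <;> simp [A0, Equiv.swap_apply_def] <;> norm_num
  · apply permSim_of _ (Equiv.swap 1 3)
    intro i j
    fin_cases i <;> fin_cases j <;> simp [A0, Equiv.swap_apply_def] <;> norm_num
  · apply permSim_of _ (Equiv.swap 0 2)
    intro i j
    fin_cases i <;> fin_cases j <;> simp [A0, Equiv.swap_apply_def] <;> norm_num

theorem result : ∃ (n : ℕ) (A : Matrix (Fin n) (Fin n) ℝ), 2 ≤ n ∧ A ∈ symDS n ∧ 0 < A.trace ∧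
    IsDS A ∧ A ∉ segment ℝ 1 (Cmat n) ∧
    ∀ P ∈ (symDS n).extremePoints ℝ, A ∉ segment ℝ 1 P ∧ A ∉ segment ℝ (Cmat n) P := by
  have hmem : ∀ t : ℝ, 0 ≤ t → t ≤ 1 →
      !![0, 1, 0, 0; 1, 0, 0, 0; 0, 0, t, 1 - t; 0, 0, 1 - t, t] ∈ symDS 4 := fun t h0 h1 => by
    refine ⟨fun i j => ?_, fun i => ?_, fun i => ?_, ?_⟩
    · fin_cases i <;> fin_cases j <;> simp [h0, h1]
    · fin_cases i <;> simp [Fin.sum_univ_four]
    · fin_cases i <;> simp [Fin.sum_univ_four]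
    · ext i j
      fin_cases i <;> fin_cases j <;> simp
  have hA : A0 ∈ symDS 4 := by
    have := hmem (1 / 4) (by norm_num) (by norm_num)
    norm_num at this
    simpa [A0] using this
  have hne : A0 ∉ (symDS 4).extremePoints ℝ := by
    rintro ⟨-, h⟩
    have := h (hmem 0 le_rfl zero_le_one) (hmem 1 zero_le_one le_rfl)
      ⟨3 / 4, 1 / 4, by norm_num, by norm_num, by norm_num, by
        ext i j
        fin_cases i <;> fin_cases j <;> simp [A0] <;> norm_num⟩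
    have h2 := congrFun (congrFun this 2) 2
    simp [A0] at h2
  refine ⟨4, A0, by norm_num, hA, by simp [A0, trace, Fin.sum_univ_four], A0_DS, ?_,
    fun P hP => ⟨?_, ?_⟩⟩
  · rintro ⟨s, t, hs, ht, hst, h⟩
    have h1 := congrFun (congrFun h 0) 0
    have h2 := congrFun (congrFun h 2) 2
    simp [A0, Cmat] at h1 h2
    linarith
  · rintro ⟨s, t, hs, ht, hst, h⟩
    have h1 := congrFun (congrFun h 0) 0
    have h2 := mul_nonneg ht (hP.1.1 0 0)
    simp [A0] at h1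
    have hs0 : s = 0 := by linarith
    have ht1 : t = 1 := by linarith
    rw [hs0, ht1, zero_smul, zero_add, one_smul] at h
    exact hne (h ▸ hP)
  · rintro ⟨s, t, hs, ht, hst, h⟩
    have h1 := congrFun (congrFun h 0) 2
    have h2 := mul_nonneg ht (hP.1.1 0 2)
    simp [A0, Cmat] at h1
    norm_num at h1
    have hs0 : s = 0 := by linarith
    have ht1 : t = 1 := by linarith
    rw [hs0, ht1, zero_smul, zero_add, one_smul] at h
    exact hne (h ▸ hP)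

end Pool.Agent.Results.MP_3aa442_co.Counter
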